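import Pool.Agent.H16.Jet3

set_option autoImplicit false

namespace Pool.Agent.Results.MP_677f70_an.Exists

open Filter Topology Complex InnerProductSpace Laplacian Pool.Agent.H16.Jet

variable {m : ℕ}

def U (m : ℕ) : Set (E m) := {x | 0 < x (Fin.last _) ∧ 9 < Real.log (x (Fin.last _)) ∧
  x (Fin.last _) * Real.log (x (Fin.last _)) / 5 < H x}

lemma U_open : IsOpen (U m) := isOpen_iff_mem_nhds.2 fun p h => by
  have c : ContinuousAt (fun x : E m => Real.log (x (Fin.last _))) p :=
    ContinuousAt.log (by fun_prop) h.1.ne'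
  exact (continuousAt_const.eventually_lt (g := fun x : E m => x (Fin.last _))
    (by fun_prop) h.1).and
    ((continuousAt_const.eventually_lt c h.2.1).and
    (ContinuousAt.eventually_lt (f := fun x : E m => x (Fin.last _) * Real.log (x (Fin.last _)) / 5)
      (by fun_prop) (H_smooth h.1).continuousAt h.2.2))

lemma est {x : E m} (h : 0 < x (Fin.last _)) (k : 9 ≤ Real.log (x (Fin.last _)))
    (l : x (Fin.last _) * Real.log (x (Fin.last _)) / 5 ≤ H x) :
    H x ≤ 2 * (m + 1) * (x (Fin.last _) * Real.log (x (Fin.last _))) ∧ ‖x‖ ≤ 20 * (m + 1) * H x := by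
  have a : H x ≤ (m + 1) * (x (Fin.last _) * (Real.log (x (Fin.last _)) + 1)) -
      (∑ i, ‖ζ i x‖) / 2 := (Finset.sum_le_sum fun i _ => estB (z := ζ i x) h).trans_eq (by
    simp [Finset.sum_div, ζ])
  have b : ‖x‖ ≤ ∑ i, ‖ζ i x‖ := by
    refine (pow_le_pow_iff_left₀ (by positivity) (by positivity) two_ne_zero).1 (le_trans ?_
      (Finset.sum_sq_le_sq_sum_of_nonneg fun _ _ => norm_nonneg _))
    rw [EuclideanSpace.norm_sq_eq, Fin.sum_univ_castSucc]
    simp [Complex.sq_norm, normSq_apply, ζ, Finset.sum_add_distrib, ← sq]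
    nlinarith [sq_nonneg (x (Fin.last _)), m.cast_nonneg (α := ℝ)]
  have d : (m + 1) * (x (Fin.last _) * (Real.log (x (Fin.last _)) + 1)) ≤
      (m + 1) * (x (Fin.last _) * (2 * Real.log (x (Fin.last _)))) := by gcongr; linarith
  have f : 0 < x (Fin.last _) * Real.log (x (Fin.last _)) := mul_pos h (by linarith)
  have g := mul_le_mul_of_nonneg_left l (by positivity : (0 : ℝ) ≤ m + 1)
  constructor <;> linarith [norm_nonneg x]

theorem result (n : ℕ) (hn : 2 ≤ n) : ∃ D : Set (EuclideanSpace ℝ (Fin n)),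
    IsOpen D ∧ IsConnected D ∧ ¬ Bornology.IsBounded D ∧
    (∃ h : EuclideanSpace ℝ (Fin n) → ℝ, HarmonicOnNhd h D ∧ ∀ x ∈ D, ‖x‖ ≤ h x) ∧
    ¬ ∃ h : EuclideanSpace ℝ (Fin n) → ℝ, HarmonicOnNhd h D ∧
      ∀ x ∈ D, |x ⟨0, by omega⟩| * Real.posLog |x ⟨0, by omega⟩| ≤ h x := by
  obtain ⟨m, rfl⟩ := Nat.exists_eq_add_of_le' hn
  obtain ⟨o, o1, o2⟩ : ∃ o : E m, o (Fin.last _) = Real.exp 16 ∧ ∀ i, ζ i o = Real.exp 16 :=
    ⟨EuclideanSpace.single (Fin.last _) (Real.exp 16), by simp, fun i => by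
      apply Complex.ext <;> simp [ζ, Fin.castSucc_ne_last, -ofReal_exp]⟩
  have o3 : H o = (m + 1) * (Real.exp 16 * 16) := by simp [H, o2, ← ofReal_log (Real.exp_pos _).le, -ofReal_exp]
  have o4 : Real.exp 16 * 16 / 5 < H o := by
    have := Real.exp_pos 16
    rw [o3]; nlinarith [m.cast_nonneg (α := ℝ)]
  have oU : o ∈ U m := by
    simp only [U, Set.mem_ofPred, o1, Real.log_exp]
    exact ⟨Real.exp_pos _, by norm_num, o4⟩
  have sub := connectedComponentIn_subset (U m) o
  have op : IsOpen (connectedComponentIn (U m) o) := U_open.connectedComponentIn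
  have oD := mem_connectedComponentIn oU
  have cl : ∀ p ∈ U m, p ∈ closure (connectedComponentIn (U m) o) →
      p ∈ connectedComponentIn (U m) o := fun p hp hc => by
    obtain ⟨z, z1, z2⟩ := mem_closure_iff.1 hc _ U_open.connectedComponentIn
      (mem_connectedComponentIn hp)
    rw [connectedComponentIn_eq z2, ← connectedComponentIn_eq z1]
    exact mem_connectedComponentIn hp
  have co := isConnected_connectedComponentIn_iff.2 oU
  generalize connectedComponentIn (U m) o = D at *
  suffices s : ¬ ∃ h : E m → ℝ, HarmonicOnNhd h D ∧ ∀ x ∈ D, |x 0| * Real.posLog |x 0| ≤ h x by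
    refine ⟨D, op, co, fun b => s ?_, ⟨_, fun x hx => (H_harm (sub hx).1).const_smul
      (c := 20 * (m + 1 : ℝ)), fun x hx => (est (sub hx).1 (sub hx).2.1.le (sub hx).2.2.le).2⟩, s⟩
    obtain ⟨C, hC⟩ := b.isCompact_closure.bddAbove_image (f := fun x : E m =>
      |x 0| * Real.posLog |x 0|) (by fun_prop)
    exact ⟨_, harmonicOnNhd_const C, fun x hx => hC ⟨x, subset_closure hx, rfl⟩⟩
  rintro ⟨h, h1, h2⟩
  let g (x : E m) : ℝ := -1 * (ζ 0 x * log (ζ 0 x) ^ 2).re + -7 * h x
  have g1 : ∀ x ∈ D, g x ≤ -(x (Fin.last _) * Real.log (x (Fin.last _)) ^ 2 / 2) := fun x hx => by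
    have : _ ≤ 7 * (|x 0| * Real.posLog |x 0|) - x (Fin.last _) * Real.log (x (Fin.last _)) ^ 2 / 2 :=
      estD (z := ζ 0 x) (sub hx).1 (sub hx).2.1.le
    linarith [h2 x hx]
  have W0 : 0 < W o := by
    rw [W, o1, Real.log_exp, show √16 = 4 by rw [Real.sqrt_eq_iff_mul_self_eq] <;> norm_num]
    linarith
  obtain ⟨K, K0, K1⟩ : ∃ K : ℝ, 0 < K ∧ 0 < K * W o + g o :=
    ⟨(|g o| + 1) / W o, by positivity, by
      rw [div_mul_cancel₀ _ W0.ne']; linarith [neg_abs_le (g o)]⟩
  have Wc : ∀ x : E m, 0 < x (Fin.last _) → ContinuousAt W x := fun x hx => by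
    have c : ContinuousAt (fun x : E m => Real.log (x (Fin.last _))) x :=
      ContinuousAt.log (by fun_prop) hx.ne'
    have := (H_smooth hx).continuousAt
    unfold W; fun_prop
  let Z := D ∩ {x | x (Fin.last _) * Real.log (x (Fin.last _)) ^ 2 / 2 ≤ K * W x}
  have Zc : IsCompact Z := by
    refine Metric.isCompact_of_isClosed_isBounded (isClosed_of_closure_subset fun p hp => ?_) ?_
    · have t := mem_closure_iff_nhdsWithin_neBot.1 hp
      have ev : ∀ᶠ x in 𝓝[Z] p, x ∈ Z := self_mem_nhdsWithin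
      have y1 : Real.exp 9 ≤ p (Fin.last _) := ge_of_tendsto (x := 𝓝[Z] p)
        (ContinuousAt.continuousWithinAt (f := fun x : E m => x (Fin.last _)) (by fun_prop))
        (ev.mono fun x hx => ((Real.lt_log_iff_exp_lt (sub hx.1).1).1 (sub hx.1).2.1).le)
      have y0 := (Real.exp_pos _).trans_le y1
      have y2 := (Real.le_log_iff_exp_le y0).2 y1
      have c : ContinuousAt (fun x : E m => Real.log (x (Fin.last _))) p :=
        ContinuousAt.log (by fun_prop) y0.ne'
      have y3 : p (Fin.last _) * Real.log (p (Fin.last _)) / 5 ≤ H p :=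
        le_of_tendsto_of_tendsto (b := 𝓝[Z] p) (ContinuousAt.continuousWithinAt (f := fun x : E m =>
          x (Fin.last _) * Real.log (x (Fin.last _)) / 5) (by fun_prop)) (H_smooth y0).continuousAt.continuousWithinAt (ev.mono fun x hx => (sub hx.1).2.2.le)
      have y4 : p (Fin.last _) * Real.log (p (Fin.last _)) ^ 2 / 2 ≤ K * W p :=
        le_of_tendsto_of_tendsto (b := 𝓝[Z] p) (ContinuousAt.continuousWithinAt (f := fun x : E m =>
          x (Fin.last _) * Real.log (x (Fin.last _)) ^ 2 / 2) (by fun_prop)) (continuousAt_const.mul (Wc p y0)).continuousWithinAt (ev.mono fun x hx => hx.2)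
      have y5 : W p ≠ 0 := fun e => by
        have : 0 < Real.log (p (Fin.last _)) := by linarith
        have : 0 < p (Fin.last _) * Real.log (p (Fin.last _)) ^ 2 / 2 := by positivity
        rw [e] at y4; linarith
      refine ⟨cl p ⟨y0, y2.lt_of_ne fun e => y5 ?_, y3.lt_of_ne fun e => y5 ?_⟩
        (closure_mono Set.inter_subset_left hp), y4⟩
      · rw [W, ← e, show √9 = 3 by rw [Real.sqrt_eq_iff_mul_self_eq] <;> norm_num]; ring
      · rw [W, ← e]; ring
    · set T := (4 * K * (m + 1)) ^ 2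
      refine isBounded_iff_forall_norm_le.2 ⟨20 * (m + 1) * (2 * (m + 1) * (Real.exp T * T)),
        fun x ⟨hx, hz⟩ => ?_⟩
      obtain ⟨a1, a2, a3⟩ := sub hx
      obtain ⟨b1, b2⟩ := est a1 a2.le a3.le
      have q3 : 3 < √(Real.log (x (Fin.last _))) := Real.lt_sqrt_of_sq_lt (by linarith)
      have q2 := Real.sq_sqrt (x := Real.log (x (Fin.last _))) (by linarith)
      have f : 0 < x (Fin.last _) * Real.log (x (Fin.last _)) := mul_pos a1 (by linarith)
      have : W x ≤ √(Real.log (x (Fin.last _))) *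
          (2 * (m + 1) * (x (Fin.last _) * Real.log (x (Fin.last _)))) := by
        unfold W; gcongr <;> linarith
      have : Real.log (x (Fin.last _)) ≤ T := by
        refine q2.symm.trans_le (pow_le_pow_left₀ (by linarith) ?_ 2)
        refine le_of_mul_le_mul_right ?_ (mul_pos (by linarith : 0 < √(Real.log (x (Fin.last _)))) f)
        have := mul_le_mul_of_nonneg_left this K0.le
        simp only [Set.mem_ofPred] at hz
        nlinarith
      have := (Real.log_le_iff_le_exp a1).1 this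
      refine b2.trans (mul_le_mul_of_nonneg_left (b1.trans ?_) (by positivity))
      gcongr
  obtain ⟨p, hp, pm⟩ := Zc.exists_isMaxOn (f := fun x => K * W x + g x) ⟨o, oD, by
    simp only [Set.mem_ofPred]; linarith [g1 o oD]⟩ fun x hx => by
      have := Wc x (sub hx.1).1
      have := (h1 x hx.1).1.continuousAt
      have := (log_smooth 0 (sub hx.1).1).continuousAt
      have := (ζ_smooth (0 : Fin (m + 1))).continuous
      exact ContinuousAt.continuousWithinAt (by fun_prop)
  have p0 : K * W o + g o ≤ K * W p + g p := pm ⟨oD, by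
    simp only [Set.mem_ofPred]; linarith [g1 o oD]⟩
  have lm : IsLocalMax (fun x => K * W x + g x) p := Filter.mem_of_superset (op.mem_nhds hp.1)
    fun x hx => (em (x ∈ Z)).elim (fun k => pm k) fun k => by
      have : ¬ _ ≤ K * W x := fun j => k ⟨hx, j⟩
      simp only [Set.mem_ofPred]; linarith [g1 x hx]
  obtain ⟨a1, a2, a3⟩ := sub hp.1
  obtain ⟨_, c, c0, c1⟩ := P.W a1 a2 a3
  obtain ⟨_, c2⟩ := P.G a1
  have := ((c1.cmul K).add ((c2.cmul (-1)).add ((P.smooth (h1 p hp.1).1).cmul (-7)))).nonpos lm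
  rw [(h1 p hp.1).2.self_of_nhds] at this
  simp at this
  nlinarith

end Pool.Agent.Results.MP_677f70_an.Exists
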